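import Pool.Agent.Helper97.Ku.GoalsG

/-! Packet KURP (MP_47bc22_lc): the formula for Kurepa trees in a two-valued structure. -/

set_option linter.unusedSimpArgs false

namespace Pool.Agent.Helper97.Ku.PkKURP

open Pool.Agent.Helper97.Ku

universe v v'

section
variable {W : Type v} {F : Type v'} (M : BStr W F Prop) (i : ℕ → W) (e : ℕ → F)

theorem v_all (k : ℕ) (a : SO) :
    (SO.all k a).val M i e ↔ ∀ x, a.val M (Function.update i k x) e := by
  simp only [SO.val, iInf_Prop_eq]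

theorem v_allF (k : ℕ) (a : SO) :
    (SO.allF k a).val M i e ↔ ∀ x, a.val M i (Function.update e k x) := by
  simp only [SO.val, iInf_Prop_eq]

theorem v_and (a b : SO) : (SO.and a b).val M i e ↔ (a.val M i e ∧ b.val M i e) := Iff.rfl

theorem v_neg (a : SO) : (SO.neg a).val M i e ↔ ¬ a.val M i e := Iff.rfl

theorem v_or (a b : SO) : (SO.or a b).val M i e ↔ (a.val M i e ∨ b.val M i e) := by
  rw [SO.or, v_neg, v_and, v_neg, v_neg]; tauto

theorem v_imp (a b : SO) : (SO.imp a b).val M i e ↔ (a.val M i e → b.val M i e) := by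
  rw [SO.imp, v_neg, v_and, v_neg]; tauto

theorem v_ex (k : ℕ) (a : SO) :
    (SO.ex k a).val M i e ↔ ∃ x, a.val M (Function.update i k x) e := by
  rw [SO.ex, v_neg, v_all]
  simp only [v_neg, not_forall, not_not]

theorem v_exF (k : ℕ) (a : SO) :
    (SO.exF k a).val M i e ↔ ∃ x, a.val M i (Function.update e k x) := by
  rw [SO.exF, v_neg, v_allF]
  simp only [v_neg, not_forall, not_not]

theorem v_lt (a b : Tm) : (SO.lt a b).val M i e ↔ M.lt (a.ev M i) (b.ev M i) := Iff.rfl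
theorem v_eq (a b : Tm) : (SO.eq a b).val M i e ↔ M.eq (a.ev M i) (b.ev M i) := Iff.rfl
theorem v_om (a : Tm) : (SO.om a).val M i e ↔ M.om (a.ev M i) := Iff.rfl
theorem v_ap (f : ℕ) (a b : Tm) :
    (SO.ap f a b).val M i e ↔ M.ap (e f) (a.ev M i) (b.ev M i) := Iff.rfl

end

section
variable {W : Type v} (lt : W → W → Prop) (om : W → Prop) (p : W → W → W)
  (F : (W → W) → Prop) (c0 c1 : W)

theorem reg_iff (h0 : ∀ i, IsZero lt i ↔ i = c0) (h1 : ∀ i, IsOne lt i ↔ i = c1)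
    (i : ℕ → W) (e : ℕ → {f : W → W // F f}) :
    SO.reg.val (PStr lt om p F c0 c1) i e ↔ RegTree lt om p F (e 0).1 (e 1).1 := by
  simp only [SO.reg, SO.R, v_and, v_all, v_or, v_neg, v_imp, v_ex, v_exF, v_lt, v_eq, v_om, v_ap,
    Tm.ev, PStr, SO.V, Function.update_apply]
  simp only [if_true, OfNat.ofNat_ne_zero, if_false, reduceIte, OfNat.zero_ne_ofNat,
    OfNat.one_ne_ofNat, OfNat.ofNat_ne_one, zero_ne_one, one_ne_zero, Nat.reduceEqDiff,
    Subtype.exists]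
  constructor
  · rintro ⟨a1, a2, a3, a4, a5, a6, a7, a8, a9, a10⟩
    refine ⟨?_, ?_, ?_, ?_, ?_, ?_, ?_, ?_, ?_, ?_⟩
    · intro k
      rw [h0, h1]
      exact a1 k
    · intro k
      rw [Rel, h1]
      exact a2 k
    · intro a b c
      rw [Rel, Rel, Rel, h1, h1, h1]
      intro hx hy
      exact a3 a b c ⟨hx, hy⟩
    · intro a b c
      rw [Rel, Rel, Rel, Rel, h1, h1, h1, h1]
      intro hx hy
      exact a4 a b c ⟨hx, hy⟩
    · intro a b
      rw [Rel, h1]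
      intro hx
      exact a5 a b _ _ ⟨hx, rfl, rfl⟩
    · intro a b hab
      obtain ⟨c, hc, hc'⟩ := a6 a _ b ⟨rfl, hab⟩
      refine ⟨c, ?_, hc'⟩
      rw [Rel, h1]; exact hc
    · obtain ⟨r, hr, hr'⟩ := a7
      refine ⟨r, ?_, ?_⟩
      · rw [h0]; exact hr
      · intro j hj
        rw [h0] at hj
        exact hr' j hj
    · intro a
      obtain ⟨b, c, hbc, hb, hc, hd⟩ := a8 a
      refine ⟨b, c, hbc, ?_, ?_, ?_⟩
      · rw [Rel, h1]; exact hb
      · rw [Rel, h1]; exact hc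
      · intro k
        rw [Rel, Rel, Rel, h1, h1, h1]
        exact hd k
    · intro a b hab
      obtain ⟨c, hc, hc'⟩ := a9 a _ b ⟨rfl, hab⟩
      refine ⟨c, ?_, hc'⟩
      rw [Rel, h1]; exact hc
    · intro a
      obtain ⟨f, hf, hf'⟩ := a10 a
      exact ⟨f, hf, fun j hj => hf' j hj⟩
  · rintro ⟨a1, a2, a3, a4, a5, a6, a7, a8, a9, a10⟩
    simp only [Rel, h0, h1] at a1 a2 a3 a4 a5 a6 a7 a8 a9 a10
    refine ⟨a1, a2, ?_, ?_, ?_, ?_, a7, a8, ?_, ?_⟩
    · rintro a b c ⟨hx, hy⟩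
      exact a3 a b c hx hy
    · rintro a b c ⟨hx, hy⟩
      exact a4 a b c hx hy
    · rintro a b c d ⟨hx, rfl, rfl⟩
      exact a5 a b hx
    · rintro a b c ⟨rfl, hx⟩
      exact a6 a c hx
    · rintro a b c ⟨rfl, hx⟩
      exact a9 a c hx
    · intro a
      obtain ⟨f, hf, hf'⟩ := a10 a
      exact ⟨f, hf, fun j hj => hf' j hj⟩

theorem br_iff (h1 : ∀ i, IsOne lt i ↔ i = c1)
    (i : ℕ → W) (e : ℕ → {f : W → W // F f}) :
    SO.br.val (PStr lt om p F c0 c1) i e ↔ IsBranch lt p (e 0).1 (e 3).1 := by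
  simp only [SO.br, SO.R, v_and, v_all, v_or, v_neg, v_imp, v_ex, v_exF, v_lt, v_eq, v_om, v_ap,
    Tm.ev, PStr, SO.V, Function.update_apply]
  simp only [if_true, OfNat.ofNat_ne_zero, if_false, reduceIte, OfNat.zero_ne_ofNat,
    OfNat.one_ne_ofNat, OfNat.ofNat_ne_one, zero_ne_one, one_ne_zero, Nat.reduceEqDiff,
    Subtype.exists]
  rw [IsBranch]
  simp only [Rel, h1]
  constructor
  · rintro ⟨a1, a2⟩
    refine ⟨fun a b hab => a1 a b _ _ ⟨hab, rfl, rfl⟩, fun a b hab => ?_⟩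
    obtain ⟨c, hc, hc'⟩ := a2 a _ b ⟨rfl, hab⟩
    exact ⟨c, hc, hc'⟩
  · rintro ⟨a1, a2⟩
    refine ⟨?_, ?_⟩
    · rintro a b c d ⟨hx, rfl, rfl⟩
      exact a1 a b hx
    · rintro a b c ⟨rfl, hx⟩
      exact a2 a c hx

theorem lst_iff (i : ℕ → W) (e : ℕ → {f : W → W // F f}) :
    SO.lst.val (PStr lt om p F c0 c1) i e ↔ ∃ ν, ∀ α, (e 2).1 (p ν α) = (e 3).1 α := by
  simp only [SO.lst, SO.R, v_and, v_all, v_or, v_neg, v_imp, v_ex, v_exF, v_lt, v_eq, v_om, v_ap,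
    Tm.ev, PStr, SO.V, Function.update_apply]
  simp only [if_true, OfNat.ofNat_ne_zero, if_false, reduceIte, OfNat.zero_ne_ofNat,
    OfNat.one_ne_ofNat, OfNat.ofNat_ne_one, zero_ne_one, one_ne_zero, Nat.reduceEqDiff,
    Subtype.exists]
  constructor
  · rintro ⟨a, ha⟩
    exact ⟨a, fun b => (ha b _ rfl).symm⟩
  · rintro ⟨a, ha⟩
    refine ⟨a, ?_⟩
    rintro b c rfl
    exact (ha b).symm

end

theorem kurp : G_KURP.{v} := by
  intro W lt om p F c0 c1 h0 h1 i e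
  rw [SO.kur, v_and, v_exF, v_allF]
  simp only [v_exF, v_and, v_neg, reg_iff lt om p F c0 c1 h0 h1, br_iff lt om p F c0 c1 h1,
    lst_iff, IsKur]
  simp only [Function.update_apply]
  simp only [if_true, OfNat.ofNat_ne_zero, if_false, reduceIte, OfNat.zero_ne_ofNat,
    OfNat.one_ne_ofNat, OfNat.ofNat_ne_one, zero_ne_one, one_ne_zero, Nat.reduceEqDiff,
    Subtype.exists, Subtype.forall, not_exists, not_forall, exists_prop]

end Pool.Agent.Helper97.Ku.PkKURP
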